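import Pool.Agent.helper37.P2.SpecD
import Pool.Agent.helper38.V3.KO0
import Pool.Agent.helper70.V3.KO3
import Pool.Agent.helper23.V3.KO2
import Pool.Agent.helper89.V3.KO1

/-!
# Project P2 (MP_063734_an): row KOE (Koebe)
-/

set_option autoImplicit false

open scoped ContDiff Topology
open MeasureTheory Filter Set Metric MvPolynomial Pool.Agent.helper37.QA

namespace Pool.Agent.P2

theorem KOE : KOE_stmt := by
  obtain ⟨C1, hC1, h1⟩ := V3.KO1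
  obtain ⟨C3, hC3, h3⟩ := V3.KO3 V3.KO0 (V3.KO2 V3.KO0) (1 / 4) (by norm_num) (by norm_num)
  have hP : (0 : ℝ) < 32 * C1 ^ 2 * C3 ^ 2 := by positivity
  have hP1 : (32 : ℝ) ≤ 32 * C1 ^ 2 * C3 ^ 2 := by
    have a1 : (1 : ℝ) ≤ C1 ^ 2 := one_le_pow₀ hC1
    have a2 : (1 : ℝ) ≤ C3 ^ 2 := one_le_pow₀ hC3
    nlinarith
  refine ⟨1 / (32 * C1 ^ 2 * C3 ^ 2), by positivity, ?_, ?_⟩
  · rw [div_le_div_iff₀ hP (by norm_num)]
    linarith
  intro g h ξ ζ hg hgi hh hhi hξ hζ hz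
  have sub : ∀ (a : ℂ) (r s : ℝ), ‖a‖ ≤ 1 / 32 → 1 / 32 + r ≤ s → ball a r ⊆ ball (0 : ℂ) s := by
    intro a r s ha hs x hx
    rw [mem_ball_zero_iff]
    rw [mem_ball, dist_eq_norm] at hx
    calc ‖x‖ = ‖a + (x - a)‖ := by congr 1; ring
      _ ≤ ‖a‖ + ‖x - a‖ := norm_add_le _ _
      _ < s := by linarith
  set D : ℝ := ‖deriv g ξ‖ with hD
  have hξ1 : ξ ∈ ball (0 : ℂ) 1 := by
    rw [mem_ball_zero_iff]; linarith
  have hDpos : 0 < D := norm_pos_iff.mpr (V3.KO0 g (ball 0 1) isOpen_ball hg hgi ξ hξ1)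
  have hgA := h1 g ξ (1 / 16) (by norm_num) (hg.mono (sub ξ _ 1 hξ (by norm_num)))
    (hgi.mono (sub ξ _ 1 hξ (by norm_num)))
  by_cases hc : h '' ball 0 (1 / 2) ⊆ ball (g ξ) (1 / 16 * D / C1)
  · left
    intro w hw
    obtain ⟨x, hx, rfl⟩ := hgA (hc hw)
    exact ⟨x, sub ξ _ (1 / 8) hξ (by norm_num) hx, rfl⟩
  · right
    rw [Set.not_subset] at hc
    obtain ⟨w, ⟨ζ', hζ', rfl⟩, hw⟩ := hc
    rw [mem_ball, not_lt, dist_eq_norm] at hw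
    obtain ⟨-, hh3⟩ := h3 h ζ (31 / 32) (by norm_num) (hh.mono (sub ζ _ 1 hζ (by norm_num)))
      (hhi.mono (sub ζ _ 1 hζ (by norm_num)))
    obtain ⟨-, hg3⟩ := h3 g ξ (31 / 32) (by norm_num) (hg.mono (sub ξ _ 1 hξ (by norm_num)))
      (hgi.mono (sub ξ _ 1 hξ (by norm_num)))
    rw [mem_ball_zero_iff] at hζ'
    have hdist : ‖ζ' - ζ‖ < 17 / 32 := by
      calc ‖ζ' - ζ‖ ≤ ‖ζ'‖ + ‖ζ‖ := norm_sub_le _ _
        _ < 17 / 32 := by linarith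
    obtain ⟨-, -, hgr, -⟩ := hh3 ζ' (by rw [mem_ball, dist_eq_norm]; linarith)
    have hE : 0 ≤ ‖deriv h ζ‖ := norm_nonneg _
    have hlow : 1 / 16 * D / C1 ≤ C3 * ‖deriv h ζ‖ := by
      calc 1 / 16 * D / C1 ≤ ‖h ζ' - g ξ‖ := hw
        _ = ‖h ζ' - h ζ‖ := by rw [hz]
        _ ≤ C3 * ‖ζ' - ζ‖ * ‖deriv h ζ‖ := hgr
        _ ≤ C3 * 1 * ‖deriv h ζ‖ := by
          apply mul_le_mul_of_nonneg_right _ hE
          apply mul_le_mul_of_nonneg_left _ (by linarith)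
          linarith
        _ = C3 * ‖deriv h ζ‖ := by ring
    have hhB := h1 h ζ (1 / 2) (by norm_num) (hh.mono (sub ζ _ 1 hζ (by norm_num)))
      (hhi.mono (sub ζ _ 1 hζ (by norm_num)))
    rintro w ⟨x, hx, rfl⟩
    have hx' : ‖x - ξ‖ < 1 / (32 * C1 ^ 2 * C3 ^ 2) := by rwa [mem_ball, dist_eq_norm] at hx
    have hx1 : 1 / (32 * C1 ^ 2 * C3 ^ 2) ≤ 1 / 32 := by
      apply one_div_le_one_div_of_le (by norm_num) hP1
    obtain ⟨-, -, hgg, -⟩ := hg3 x (by rw [mem_ball, dist_eq_norm]; linarith)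
    have hC1p : 0 < C1 := by linarith
    have hC3p : 0 < C3 := by linarith
    have hfin : ‖g x - g ξ‖ < 1 / 2 * ‖deriv h ζ‖ / C1 := by
      calc ‖g x - g ξ‖ ≤ C3 * ‖x - ξ‖ * D := hgg
        _ < C3 * (1 / (32 * C1 ^ 2 * C3 ^ 2)) * D := by
          apply mul_lt_mul_of_pos_right _ hDpos
          exact mul_lt_mul_of_pos_left hx' hC3p
        _ = 1 / (2 * C1 * C3) * (1 / 16 * D / C1) := by field_simp; norm_num
        _ ≤ 1 / (2 * C1 * C3) * (C3 * ‖deriv h ζ‖) :=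
          mul_le_mul_of_nonneg_left hlow (by positivity)
        _ = 1 / 2 * ‖deriv h ζ‖ / C1 := by field_simp
    obtain ⟨y, hy, hyx⟩ := hhB (show g x ∈ ball (h ζ) (1 / 2 * ‖deriv h ζ‖ / C1) by
      rw [mem_ball, dist_eq_norm, ← hz]; exact hfin)
    exact ⟨y, sub ζ _ (3 / 4) hζ (by norm_num) hy, hyx⟩

end Pool.Agent.P2
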