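import Pool.Agent.helper37.P2.SpecB

/-!
# Row p2:OCC
-/

set_option autoImplicit false

open scoped ContDiff Topology
open MeasureTheory Filter Set Metric MvPolynomial Pool.Agent.helper37.QA

namespace Pool.Agent.P2

theorem OCC_mv_smul (A : M3) (c : ℂ) (W : E3) : mv A (c • W) = c • mv A W := by
  funext i
  simp [mv, Finset.mul_sum, mul_left_comm]

theorem OCC_mv_cont : Continuous (fun p : M3 × E3 => mv p.1 p.2) := by
  unfold mv
  fun_prop

theorem OCC_near_open (r : ℝ) : IsOpen {A : M3 | Near r A} := by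
  have h : {A : M3 | Near r A} = ⋂ i, ⋂ j, {A : M3 | ‖A i j - one3 i j‖ < r} := by
    ext A
    simp [Near]
  rw [h]
  exact isOpen_iInter_of_finite fun i => isOpen_iInter_of_finite fun j =>
    isOpen_lt (by fun_prop) continuous_const

/-- the right inverse of `A ↦ mv A W` -/
noncomputable def OCC_s (j : Fin 3) (W Y : E3) : M3 := fun i l => if l = j then Y i / W j else 0

theorem OCC_s_mv (j : Fin 3) (W Y : E3) (hW : W j ≠ 0) (A : M3) :
    mv (A + OCC_s j W Y) W = mv A W + Y := by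
  funext i
  simp only [mv, OCC_s, Pi.add_apply, add_mul, Finset.sum_add_distrib, ite_mul, zero_mul,
    Finset.sum_ite_eq', Finset.mem_univ, if_true]
  rw [div_mul_cancel₀ _ hW]

theorem OCC_swap (F : M3 → ENNReal) (hF : Measurable F) (s : E3 → M3) (hs : Continuous s) (D : Set E3) :
    ∫⁻ Y in D, ∫⁻ A, F (A + s Y) = ∫⁻ A, ∫⁻ Y in D, F (A + s Y) := by
  have hc : Measurable (fun p : E3 × M3 => p.2 + s p.1) :=
    (continuous_snd.add (hs.comp continuous_fst)).measurable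
  have h2 : AEMeasurable (Function.uncurry fun (Y : E3) (A : M3) => F (A + s Y))
      ((volume.restrict D).prod volume) := (hF.comp hc).aemeasurable
  exact lintegral_lintegral_swap h2

theorem OCC_s_cont (j : Fin 3) (W : E3) : Continuous fun Y : E3 => OCC_s j W Y := by
  unfold OCC_s
  refine continuous_pi fun i => continuous_pi fun l => ?_
  by_cases hl : l = j
  · simp only [hl, if_true]
    exact (continuous_apply i).div_const _
  · simp only [hl, if_false]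
    exact continuous_const

/-- averaging over translations -/
theorem OCC_avg (F : M3 → ENNReal) (hF : Measurable F) (s : E3 → M3) (hs : Continuous s) (D : Set E3) (B : Set M3)
    (hB : MeasurableSet B) (I : ENNReal) (h : ∀ A ∈ B, I ≤ ∫⁻ Y in D, F (A + s Y)) :
    volume B * I ≤ volume D * ∫⁻ A, F A := by
  have e2 : volume D * ∫⁻ A, F A = ∫⁻ Y in D, ∫⁻ A, F (A + s Y) := by
    have : ∀ Y : E3, ∫⁻ A, F (A + s Y) = ∫⁻ A, F A := fun Y => lintegral_add_right_eq_self F (s Y)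
    simp only [this]
    rw [setLIntegral_const, mul_comm]
  rw [e2, OCC_swap F hF s hs D]
  calc volume B * I = ∫⁻ A in B, I := by rw [setLIntegral_const, mul_comm]
    _ ≤ ∫⁻ A in B, ∫⁻ Y in D, F (A + s Y) := setLIntegral_mono' hB h
    _ ≤ ∫⁻ A, ∫⁻ Y in D, F (A + s Y) := setLIntegral_le_lintegral _ _

theorem OCC_in (r : ℝ) (A₀ : M3) (W₀ : E3) (j : Fin 3) (ρ δ : ℝ) (hρ : 0 < ρ)
    (hball : ball A₀ ρ ⊆ {A : M3 | Near r A}) (W : E3) (hW : W j ≠ 0) (hδ2 : 2 * δ ≤ ρ / 2 * ‖W j‖)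
    (A : M3) (hA : dist A A₀ < ρ / 2) (hd : dist (mv A W) (mv A₀ W₀) < δ) (h : E3 → ENNReal) :
    (∫⁻ Y in ball (mv A₀ W₀) δ, h Y) ≤
      ∫⁻ Y in ball (0 : E3) (2 * δ), {A : M3 | Near r A}.indicator (fun A => h (mv A W)) (A + OCC_s j W Y) := by
  have hWp : 0 < ‖W j‖ := norm_pos_iff.2 hW
  rw [← lintegral_indicator isOpen_ball.measurableSet, ← lintegral_indicator isOpen_ball.measurableSet,
    ← lintegral_add_left_eq_self _ (mv A W)]
  refine lintegral_mono fun Y => ?_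
  by_cases hY : mv A W + Y ∈ ball (mv A₀ W₀) δ
  · rw [indicator_of_mem hY]
    have hYn : ‖Y‖ < 2 * δ := by
      have h1 : dist (mv A W + Y) (mv A₀ W₀) < δ := hY
      have h2 : ‖Y‖ = dist (mv A W + Y) (mv A W) := by
        rw [dist_eq_norm, add_sub_cancel_left]
      have h3 := dist_triangle (mv A W + Y) (mv A₀ W₀) (mv A W)
      rw [dist_comm (mv A₀ W₀)] at h3
      linarith
    have hYb : Y ∈ ball (0 : E3) (2 * δ) := by simpa using hYn
    rw [indicator_of_mem hYb]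
    have hnear : A + OCC_s j W Y ∈ {A : M3 | Near r A} := by
      refine hball ?_
      rw [mem_ball]
      have h1 : dist (A + OCC_s j W Y) A ≤ ρ / 2 := by
        rw [dist_eq_norm, add_sub_cancel_left]
        refine (pi_norm_le_iff_of_nonneg (by positivity)).2 fun i => ?_
        refine (pi_norm_le_iff_of_nonneg (by positivity)).2 fun l => ?_
        unfold OCC_s
        by_cases hl : l = j
        · simp only [hl, if_true]
          rw [norm_div, div_le_iff₀ hWp]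
          have h2 : ‖Y i‖ ≤ ‖Y‖ := norm_le_pi_norm Y i
          linarith
        · simp only [hl, if_false, norm_zero]
          positivity
      have h3 := dist_triangle (A + OCC_s j W Y) A A₀
      linarith
    rw [indicator_of_mem hnear, OCC_s_mv j W Y hW A]
  · rw [indicator_of_notMem hY]
    exact bot_le

theorem OCC_mat (r : ℝ) (A₀ : M3) (hA : Near r A₀) (W₀ : E3) (hW : W₀ ≠ 0) :
    ∃ (ε δ c : ℝ), 0 < ε ∧ 0 < δ ∧ 0 < c ∧ ∀ (h : E3 → ENNReal), Measurable h → ∀ W ∈ ball W₀ ε,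
      ENNReal.ofReal c * (∫⁻ Y in ball (mv A₀ W₀) δ, h Y) ≤ ∫⁻ A in {A : M3 | Near r A}, h (mv A W) := by
  obtain ⟨j, hj⟩ : ∃ j, W₀ j ≠ 0 := by
    by_contra hc
    push Not at hc
    exact hW (funext hc)
  have hw : 0 < ‖W₀ j‖ := norm_pos_iff.2 hj
  obtain ⟨ρ, hρ, hball⟩ := Metric.isOpen_iff.1 (OCC_near_open r) A₀ hA
  obtain ⟨δ, hδ, hδe⟩ : ∃ δ : ℝ, 0 < δ ∧ 8 * δ = ρ * ‖W₀ j‖ := ⟨ρ * ‖W₀ j‖ / 8, by positivity, by ring⟩
  have hcont := OCC_mv_cont.continuousAt (x := (A₀, W₀))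
  obtain ⟨ε₁, hε₁, hc1⟩ := Metric.continuousAt_iff.1 hcont δ hδ
  obtain ⟨ε, hεp, he1, he2, he3⟩ : ∃ ε : ℝ, 0 < ε ∧ ε ≤ ε₁ ∧ ε ≤ ρ / 2 ∧ ε ≤ ‖W₀ j‖ / 2 :=
    ⟨min ε₁ (min (ρ / 2) (‖W₀ j‖ / 2)), by positivity, min_le_left _ _,
      (min_le_right _ _).trans (min_le_left _ _), (min_le_right _ _).trans (min_le_right _ _)⟩
  have hv0 : 0 < volume (ball A₀ ε) := measure_ball_pos _ _ hεp
  have hvt : volume (ball A₀ ε) < ⊤ := measure_ball_lt_top
  have hV0 : 0 < volume (ball (0 : E3) (2 * δ)) := measure_ball_pos _ _ (by positivity)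
  have hVt : volume (ball (0 : E3) (2 * δ)) < ⊤ := measure_ball_lt_top
  refine ⟨ε, δ, (volume (ball A₀ ε)).toReal / (volume (ball (0 : E3) (2 * δ))).toReal, hεp, hδ,
    div_pos (ENNReal.toReal_pos hv0.ne' hvt.ne) (ENNReal.toReal_pos hV0.ne' hVt.ne), ?_⟩
  intro h hh W hWb
  have hW1 : dist W W₀ < ε := hWb
  have hWj : ‖W₀ j‖ / 2 < ‖W j‖ := by
    have h1 : ‖W j - W₀ j‖ ≤ dist W W₀ := by
      rw [dist_eq_norm]
      exact norm_le_pi_norm (W - W₀) j
    have h2 : ‖W₀ j‖ - ‖W j‖ ≤ ‖W j - W₀ j‖ := by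
      have := norm_sub_norm_le (W₀ j) (W j)
      rwa [norm_sub_rev] at this
    linarith
  have hWj0 : W j ≠ 0 := norm_pos_iff.1 (by linarith)
  have hNm : MeasurableSet {A : M3 | Near r A} := (OCC_near_open r).measurableSet
  have hmvm : Measurable fun A : M3 => mv A W :=
    (OCC_mv_cont.comp (Continuous.prodMk_left W)).measurable
  have hFm : Measurable ({A : M3 | Near r A}.indicator fun A => h (mv A W)) := (hh.comp hmvm).indicator hNm
  have key := OCC_avg _ hFm _ (OCC_s_cont j W) (ball (0 : E3) (2 * δ)) (ball A₀ ε) isOpen_ball.measurableSet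
    (∫⁻ Y in ball (mv A₀ W₀) δ, h Y) (fun A hAb => by
      have hAb' : dist A A₀ < ε := hAb
      have h6 : dist ((A, W) : M3 × E3) (A₀, W₀) < ε₁ := by
        rw [Prod.dist_eq]
        exact max_lt (by linarith) (by linarith)
      have h5 : dist (mv A W) (mv A₀ W₀) < δ := @hc1 (A, W) h6
      exact OCC_in r A₀ W₀ j ρ δ hρ hball W hWj0 (by nlinarith) A (by linarith) h5 h)
  rw [lintegral_indicator hNm] at key
  rw [ENNReal.ofReal_div_of_pos (ENNReal.toReal_pos hV0.ne' hVt.ne), ENNReal.ofReal_toReal hvt.ne,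
    ENNReal.ofReal_toReal hVt.ne, ENNReal.div_eq_inv_mul, mul_assoc]
  calc (volume (ball (0 : E3) (2 * δ)))⁻¹ * (volume (ball A₀ ε) * ∫⁻ Y in ball (mv A₀ W₀) δ, h Y)
      ≤ (volume (ball (0 : E3) (2 * δ)))⁻¹ *
          (volume (ball (0 : E3) (2 * δ)) * ∫⁻ A in {A : M3 | Near r A}, h (mv A W)) := by
        gcongr
    _ = ∫⁻ A in {A : M3 | Near r A}, h (mv A W) := by
        rw [← mul_assoc, ENNReal.inv_mul_cancel hV0.ne' hVt.ne, one_mul]

/-- the set of the classes of the vectors of `B` -/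
def OCC_prj (B : Set E3) : Set (PP 2) := {p | ∃ W ∈ B, ∃ h : W ≠ 0, p = toPP ⟨W, h⟩}

theorem OCC_mem_cone (B : Set E3) (W : E3) : W ∈ cone (OCC_prj B) ↔ W ≠ 0 ∧ ∃ c : ℂ, c ≠ 0 ∧ c • W ∈ B := by
  constructor
  · rintro ⟨hW, W', hW'B, hW', he⟩
    obtain ⟨a, ha⟩ := (Projectivization.mk_eq_mk_iff' ℂ W W' hW hW').1 he
    have ha0 : a ≠ 0 := by
      rintro rfl
      exact hW (by rw [← ha, zero_smul])
    refine ⟨hW, a⁻¹, inv_ne_zero ha0, ?_⟩
    rw [← ha, smul_smul, inv_mul_cancel₀ ha0, one_smul]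
    exact hW'B
  · rintro ⟨hW, c, hc, hcB⟩
    refine ⟨hW, c • W, hcB, smul_ne_zero hc hW, ?_⟩
    exact (toPP_eq (smul_ne_zero hc hW) hW c rfl).symm

theorem OCC_prj_open (B : Set E3) (hB : IsOpen B) : IsOpen (OCC_prj B) := by
  have h0 : IsOpen (toPP ⁻¹' (OCC_prj B)) := by
    have h1 : toPP ⁻¹' (OCC_prj B) =
        ⋃ c : {c : ℂ // c ≠ 0}, {v : {v : Fin (2 + 1) → ℂ // v ≠ 0} | c.1 • v.1 ∈ B} := by
      ext v
      simp only [mem_preimage, mem_iUnion]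
      constructor
      · intro hv
        obtain ⟨_, c, hc, hcB⟩ := (OCC_mem_cone B v.1).1 ⟨v.2, hv⟩
        exact ⟨⟨c, hc⟩, hcB⟩
      · rintro ⟨⟨c, hc⟩, hcB⟩
        obtain ⟨_, h⟩ := (OCC_mem_cone B v.1).2 ⟨v.2, c, hc, hcB⟩
        exact h
    rw [h1]
    refine isOpen_iUnion fun c => ?_
    exact hB.preimage (continuous_subtype_val.const_smul c.1)
  exact isOpen_coinduced.2 h0

theorem OCC_scale (L : E3 ≃ₗ[ℝ] E3) (h : E3 → ENNReal) (hh : Measurable h) (hL : ∀ Y, h (L Y) = h Y) (S : Set E3)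
    (hS : MeasurableSet S) : ∫⁻ Y in L ⁻¹' S, h Y =
      ENNReal.ofReal |(LinearMap.det (L : E3 →ₗ[ℝ] E3))⁻¹| * ∫⁻ Y in S, h Y := by
  have hdet : LinearMap.det (L : E3 →ₗ[ℝ] E3) ≠ 0 := (LinearEquiv.isUnit_det' L).ne_zero
  have h1 := Measure.map_linearMap_addHaar_eq_smul_addHaar (volume : Measure E3) hdet
  have hLm : Measurable (L : E3 →ₗ[ℝ] E3) := (LinearMap.continuous_of_finiteDimensional (L : E3 →ₗ[ℝ] E3)).measurable
  have h2 := setLIntegral_map (μ := (volume : Measure E3)) hS hh hLm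
  rw [h1, Measure.restrict_smul, lintegral_smul_measure] at h2
  rw [smul_eq_mul] at h2
  rw [h2]
  refine lintegral_congr fun Y => ?_
  exact (hL Y).symm

theorem OCC_fin (h : E3 → ENNReal) (hh : Measurable h) (hom : ∀ (Y : E3) (c : ℂ), c ≠ 0 → h (c • Y) = h Y)
    (c : ℂ) (hc : c ≠ 0) (S : Set E3) (hS : MeasurableSet S) : ∫⁻ Y in (fun Y : E3 => c • Y) ⁻¹' S, h Y =
      ENNReal.ofReal |(LinearMap.det (((LinearEquiv.smulOfNeZero ℂ E3 c hc).restrictScalars ℝ : E3 ≃ₗ[ℝ] E3) :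
        E3 →ₗ[ℝ] E3))⁻¹| * ∫⁻ Y in S, h Y :=
  OCC_scale ((LinearEquiv.smulOfNeZero ℂ E3 c hc).restrictScalars ℝ) h hh (fun Y => hom Y c hc) S hS

theorem OCC_two (h : E3 → ENNReal) (hh : Measurable h) (hom : ∀ (Y : E3) (c : ℂ), c ≠ 0 → h (c • Y) = h Y)
    (S : Set E3) (hS : MeasurableSet S) : ∫⁻ Y in (fun Y : E3 => (2 : ℝ) • Y) ⁻¹' S, h Y =
      ENNReal.ofReal |((2 : ℝ) ^ Module.finrank ℝ E3)⁻¹| * ∫⁻ Y in S, h Y := by
  have h1 := OCC_scale (LinearEquiv.smulOfNeZero ℝ E3 (2 : ℝ) two_ne_zero) h hh (fun Y => by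
    have := hom Y 2 two_ne_zero
    rw [← this]
    congr 1) S hS
  have h2 : LinearMap.det ((LinearEquiv.smulOfNeZero ℝ E3 (2 : ℝ) two_ne_zero : E3 ≃ₗ[ℝ] E3) : E3 →ₗ[ℝ] E3) =
      2 ^ Module.finrank ℝ E3 := by
    have : ((LinearEquiv.smulOfNeZero ℝ E3 (2 : ℝ) two_ne_zero : E3 ≃ₗ[ℝ] E3) : E3 →ₗ[ℝ] E3) =
        (2 : ℝ) • LinearMap.id := by
      ext1
      rfl
    rw [this, LinearMap.det_smul, LinearMap.det_id, mul_one]
  rw [h2] at h1
  exact h1

theorem OCC_annulus (Y₀ : E3) (hY₀ : Y₀ ≠ 0) (δ : ℝ) (hδ : 0 < δ) : ∃ (δ' : ℝ) (K : Set E3) (C : ENNReal), 0 < δ' ∧ C ≠ ⊤ ∧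
    MeasurableSet K ∧ (∀ Y ∈ cone (OCC_prj (ball Y₀ δ')), 1 / 2 ≤ ‖Y‖ → ‖Y‖ ≤ 1 → Y ∈ K) ∧
    ∀ h : E3 → ENNReal, Measurable h → (∀ (Y : E3) (c : ℂ), c ≠ 0 → h (c • Y) = h Y) →
      ∫⁻ Y in K, h Y ≤ C * ∫⁻ Y in ball Y₀ δ, h Y := by
  have hn : 0 < ‖Y₀‖ := norm_pos_iff.2 hY₀
  obtain ⟨δ', hδ', h1, h2⟩ : ∃ δ' : ℝ, 0 < δ' ∧ δ' ≤ δ / 2 ∧ δ' ≤ ‖Y₀‖ / 2 :=
    ⟨min (δ / 2) (‖Y₀‖ / 2), by positivity, min_le_left _ _, min_le_right _ _⟩
  have hlow : ∀ Y₁ : E3, dist Y₁ Y₀ ≤ δ' → ‖Y₀‖ / 2 ≤ ‖Y₁‖ := by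
    intro Y₁ hY
    rw [dist_eq_norm, norm_sub_rev] at hY
    have := norm_sub_norm_le Y₀ Y₁
    linarith
  let K : Set E3 := (fun p : ℂ × E3 => p.1 • p.2) '' (closedBall 0 (2 / ‖Y₀‖) ×ˢ closedBall Y₀ δ') ∩ {Y | 1 / 2 ≤ ‖Y‖}
  have hKc : IsCompact K := by
    refine IsCompact.inter_right ?_ (isClosed_le continuous_const continuous_norm)
    exact ((isCompact_closedBall _ _).prod (isCompact_closedBall _ _)).image (continuous_fst.smul continuous_snd)
  have hch : ∀ Y : E3, ∃ c : ℂ, c ≠ 0 ∧ (Y ∈ K → c • Y ∈ ball Y₀ δ) := by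
    intro Y
    by_cases hY : Y ∈ K
    · obtain ⟨⟨⟨c, Y₁⟩, ⟨_, hY₁⟩, rfl⟩, hYn⟩ := hY
      have hYn' : 1 / 2 ≤ ‖c • Y₁‖ := hYn
      have hc0 : c ≠ 0 := by
        rintro rfl
        rw [zero_smul, norm_zero] at hYn'
        linarith
      refine ⟨c⁻¹, inv_ne_zero hc0, fun _ => ?_⟩
      change c⁻¹ • (c • Y₁) ∈ ball Y₀ δ
      rw [smul_smul, inv_mul_cancel₀ hc0, one_smul]
      have h3 : dist Y₁ Y₀ ≤ δ' := hY₁
      exact lt_of_le_of_lt h3 (by linarith)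
    · exact ⟨1, one_ne_zero, fun h => absurd h hY⟩
  choose c hc0 hc using hch
  obtain ⟨t, _, ht⟩ := hKc.elim_nhds_subcover (fun Y => (fun Y' : E3 => c Y • Y') ⁻¹' ball Y₀ δ) (fun Y hY =>
    (isOpen_ball.preimage (continuous_const_smul (c Y))).mem_nhds (hc Y hY))
  refine ⟨δ', K, ∑ Y ∈ t, ENNReal.ofReal |(LinearMap.det (((LinearEquiv.smulOfNeZero ℂ E3 (c Y) (hc0 Y)).restrictScalars ℝ :
    E3 ≃ₗ[ℝ] E3) : E3 →ₗ[ℝ] E3))⁻¹|, hδ', ?_, hKc.isClosed.measurableSet, ?_, ?_⟩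
  · exact (ENNReal.sum_lt_top.2 fun _ _ => ENNReal.ofReal_lt_top).ne
  · intro Y hY hY1 hY2
    obtain ⟨hY0, c', hc', hcB⟩ := (OCC_mem_cone _ _).1 hY
    refine ⟨⟨(c'⁻¹, c' • Y), ⟨?_, ?_⟩, ?_⟩, hY1⟩
    · have hb : dist (c' • Y) Y₀ < δ' := hcB
      have h3 := hlow _ hb.le
      rw [norm_smul] at h3
      have hcp : 0 < ‖c'‖ := norm_pos_iff.2 hc'
      change c'⁻¹ ∈ closedBall (0 : ℂ) _
      rw [mem_closedBall_zero_iff, norm_inv, inv_eq_one_div, div_le_div_iff₀ hcp hn]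
      nlinarith
    · exact ball_subset_closedBall hcB
    · change c'⁻¹ • (c' • Y) = Y
      rw [smul_smul, inv_mul_cancel₀ hc', one_smul]
  · intro h hh hom
    have hν : ∀ S : Set E3, MeasurableSet S → (volume.withDensity h) S = ∫⁻ Y in S, h Y := fun S hS =>
      withDensity_apply h hS
    rw [← hν K hKc.isClosed.measurableSet, ← hν _ isOpen_ball.measurableSet]
    calc (volume.withDensity h) K
        ≤ (volume.withDensity h) (⋃ Y ∈ t, (fun Y' : E3 => c Y • Y') ⁻¹' ball Y₀ δ) := measure_mono ht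
      _ ≤ ∑ Y ∈ t, (volume.withDensity h) ((fun Y' : E3 => c Y • Y') ⁻¹' ball Y₀ δ) := measure_biUnion_finset_le _ _
      _ = _ := by
        rw [Finset.sum_mul]
        refine Finset.sum_congr rfl fun Y _ => ?_
        rw [hν _ (isOpen_ball.preimage (continuous_const_smul (c Y))).measurableSet, hν _ isOpen_ball.measurableSet]
        exact OCC_fin h hh hom (c Y) (hc0 Y) _ isOpen_ball.measurableSet

theorem OCC_cone (Y₀ : E3) (hY₀ : Y₀ ≠ 0) (δ : ℝ) (hδ : 0 < δ) : ∃ (N : Set (PP 2)) (C : ENNReal), IsOpen N ∧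
    toPP ⟨Y₀, hY₀⟩ ∈ N ∧ C ≠ ⊤ ∧
    ∀ h : E3 → ENNReal, Measurable h → (∀ (Y : E3) (c : ℂ), c ≠ 0 → h (c • Y) = h Y) →
      ∫⁻ Y in closedBall (0 : E3) 1 ∩ cone N, h Y ≤ C * ∫⁻ Y in ball Y₀ δ, h Y := by
  obtain ⟨δ', K, C, hδ', hC, hKm, hK, hint⟩ := OCC_annulus Y₀ hY₀ δ hδ
  have hNo : IsOpen (OCC_prj (ball Y₀ δ')) := OCC_prj_open _ isOpen_ball
  refine ⟨OCC_prj (ball Y₀ δ'), (1 - ENNReal.ofReal |((2 : ℝ) ^ Module.finrank ℝ E3)⁻¹|)⁻¹ * C, hNo,
    ⟨Y₀, mem_ball_self hδ', hY₀, rfl⟩, ?_, ?_⟩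
  · refine ENNReal.mul_ne_top ?_ hC
    rw [ENNReal.inv_ne_top]
    refine (tsub_pos_iff_lt.2 ?_).ne'
    rw [← ENNReal.ofReal_one, ENNReal.ofReal_lt_ofReal_iff one_pos, abs_of_pos (by positivity)]
    refine inv_lt_one_of_one_lt₀ (one_lt_pow₀ (by norm_num) ?_)
    exact (Module.finrank_pos (R := ℝ) (M := E3)).ne'
  · intro h hh hom
    have hν : ∀ S : Set E3, MeasurableSet S → (volume.withDensity h) S = ∫⁻ Y in S, h Y := fun S hS =>
      withDensity_apply h hS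
    have hSm : MeasurableSet (closedBall (0 : E3) 1 ∩ cone (OCC_prj (ball Y₀ δ'))) :=
      isClosed_closedBall.measurableSet.inter (cone_open hNo).measurableSet
    have hpre : ∀ k : ℕ, MeasurableSet ((fun Y : E3 => ((2 : ℝ) ^ k) • Y) ⁻¹' K) := fun k =>
      (continuous_const_smul ((2 : ℝ) ^ k)).measurable hKm
    have hk : ∀ k : ℕ, (volume.withDensity h) ((fun Y : E3 => ((2 : ℝ) ^ k) • Y) ⁻¹' K) =
        ENNReal.ofReal |((2 : ℝ) ^ Module.finrank ℝ E3)⁻¹| ^ k * (volume.withDensity h) K := by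
      intro k
      induction k with
      | zero => simp
      | succ k ih =>
        have e1 : (fun Y : E3 => ((2 : ℝ) ^ (k + 1)) • Y) ⁻¹' K =
            (fun Y : E3 => (2 : ℝ) • Y) ⁻¹' ((fun Y : E3 => ((2 : ℝ) ^ k) • Y) ⁻¹' K) := by
          ext Y
          simp only [mem_preimage, smul_smul, pow_succ]
        rw [hν _ (hpre (k + 1)), e1, OCC_two h hh hom _ (hpre k), ← hν _ (hpre k), ih, pow_succ]
        ring
    have hsub : closedBall (0 : E3) 1 ∩ cone (OCC_prj (ball Y₀ δ')) ⊆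
        ⋃ k : ℕ, (fun Y : E3 => ((2 : ℝ) ^ k) • Y) ⁻¹' K := by
      rintro Y ⟨hY1, hY2⟩
      have hY0 : Y ≠ 0 := ((OCC_mem_cone _ _).1 hY2).1
      have hYn : 0 < ‖Y‖ := norm_pos_iff.2 hY0
      have hY1' : ‖Y‖ ≤ 1 := by simpa using hY1
      obtain ⟨k, hk1, hk2⟩ := exists_nat_pow_near_of_lt_one hYn hY1' (by norm_num : (0 : ℝ) < 1 / 2) (by norm_num)
      rw [mem_iUnion]
      refine ⟨k, ?_⟩
      change ((2 : ℝ) ^ k) • Y ∈ K
      have h2k : (0 : ℝ) < 2 ^ k := by positivity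
      have hnorm : ‖((2 : ℝ) ^ k) • Y‖ = 2 ^ k * ‖Y‖ := by
        rw [norm_smul, Real.norm_of_nonneg h2k.le]
      have hhalf : (2 : ℝ) ^ k * (1 / 2) ^ k = 1 := by
        rw [← mul_pow]
        norm_num
      refine hK _ ?_ ?_ ?_
      · have : ((2 : ℝ) ^ k) • Y = (((2 : ℝ) ^ k : ℝ) : ℂ) • Y := by
          funext i
          simp
        rw [this]
        exact cone_smul hY2 (by exact_mod_cast h2k.ne')
      · rw [hnorm]
        rw [pow_succ] at hk1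
        nlinarith
      · rw [hnorm]
        nlinarith
    rw [← hν _ hSm]
    calc (volume.withDensity h) (closedBall (0 : E3) 1 ∩ cone (OCC_prj (ball Y₀ δ')))
        ≤ (volume.withDensity h) (⋃ k : ℕ, (fun Y : E3 => ((2 : ℝ) ^ k) • Y) ⁻¹' K) := measure_mono hsub
      _ ≤ ∑' k : ℕ, (volume.withDensity h) ((fun Y : E3 => ((2 : ℝ) ^ k) • Y) ⁻¹' K) := measure_iUnion_le _
      _ = (1 - ENNReal.ofReal |((2 : ℝ) ^ Module.finrank ℝ E3)⁻¹|)⁻¹ * (volume.withDensity h) K := by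
        rw [tsum_congr hk, ENNReal.tsum_mul_right, ENNReal.tsum_geometric]
      _ ≤ (1 - ENNReal.ofReal |((2 : ℝ) ^ Module.finrank ℝ E3)⁻¹|)⁻¹ * (C * ∫⁻ Y in ball Y₀ δ, h Y) := by
        rw [hν _ hKm]
        gcongr
        exact hint h hh hom
      _ = _ := by rw [mul_assoc]

/-- measurable version of the area density -/
noncomputable def OCC_g (Zb Zd : ℂ → E3) (z : ℂ) : ENNReal :=
  ENNReal.ofReal (1 / 64 * (eta z ^ 2 * (nq (crs (Zb z) (Zd z)) / (2 * nq (Zb z) ^ 2))))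

theorem OCC_nq_cont : Continuous (fun v : E3 => nq v) := by
  unfold nq
  exact continuous_finsetSum _ fun i _ => Complex.continuous_normSq.comp (continuous_apply i)

theorem OCC_crs_cont : Continuous (fun p : E3 × E3 => crs p.1 p.2) := by
  refine continuous_pi fun i => ?_
  fin_cases i <;> simp only [crs] <;> simp <;> fun_prop

theorem OCC_eta_cont : Continuous eta := by
  unfold eta
  exact Real.smoothTransition.continuous.comp (continuous_const.sub (continuous_const.mul Complex.continuous_normSq))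

theorem OCC_eta_out (z : ℂ) (hz : z ∉ ball (0 : ℂ) 1) : eta z = 0 := by
  unfold eta
  refine Real.smoothTransition.zero_of_nonpos ?_
  have h1 : 1 ≤ ‖z‖ := by simpa using hz
  rw [Complex.normSq_eq_norm_sq]
  nlinarith

theorem OCC_g_meas (Zb Zd : ℂ → E3) (h1 : Measurable Zb) (h2 : Measurable Zd) : Measurable (OCC_g Zb Zd) := by
  unfold OCC_g
  have h5 : Continuous (fun p : E3 × E3 => nq (crs p.1 p.2)) := OCC_nq_cont.comp OCC_crs_cont
  have h6 : Measurable (fun p : E3 × E3 => nq (crs p.1 p.2)) := h5.measurable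
  have h7 : Measurable (fun z => (Zb z, Zd z)) := h1.prodMk h2
  have h3 := h6.comp h7
  have h8 := OCC_nq_cont.measurable
  have h4 := h8.comp h1
  have h9 := OCC_eta_cont.measurable
  have h10 := (((h9.pow_const 2).mul (h3.div ((h4.pow_const 2).const_mul 2))).const_mul (1 / 64)).ennreal_ofReal
  exact h10

theorem OCC_piece (Z : ℂ → E3) (hZ : ContinuousOn Z (ball 0 1)) : Measurable ((ball (0 : ℂ) 1).indicator Z) := by
  classical
  rw [← piecewise_eq_indicator]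
  exact hZ.measurable_piecewise continuousOn_const isOpen_ball.measurableSet

theorem OCC_deriv (A : M3) (Z : ℂ → E3) (z : ℂ) (hd : DifferentiableAt ℂ Z z) :
    deriv (fun z => mv A (Z z)) z = mv A (deriv Z z) := by
  refine HasDerivAt.deriv ?_
  refine hasDerivAt_pi.2 fun i => ?_
  unfold mv
  have := HasDerivAt.fun_sum (u := Finset.univ) (A := fun j z => A i j * Z z j) (A' := fun j => A i j * deriv Z z j)
    (x := z) (fun j _ => ((hasDerivAt_pi.1 hd.hasDerivAt) j).const_mul (A i j))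
  exact this

theorem OCC_ar (hRAD : RAD_stmt) (A : M3) (hA : Near (1 / 100) A) (Z : ℂ → E3) (z : ℂ) (hd : DifferentiableAt ℂ Z z)
    (hz : Z z ≠ 0) : 1 / 64 * (nq (crs (Z z) (deriv Z z)) / (2 * nq (Z z) ^ 2)) ≤ ar (fun z => mv A (Z z)) z := by
  obtain ⟨_, h2, _, _⟩ := hRAD
  obtain ⟨_, _, h3, h4, h5, _⟩ := h2 A hA (Z z) (deriv Z z)
  unfold ar
  rw [OCC_deriv A Z z hd]
  have hpos : 0 < nq (Z z) := by
    obtain ⟨j, hj⟩ : ∃ j, Z z j ≠ 0 := by
      by_contra hc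
      push Not at hc
      exact hz (funext hc)
    unfold nq
    refine Finset.sum_pos' (fun i _ => Complex.normSq_nonneg _) ⟨j, Finset.mem_univ _, Complex.normSq_pos.2 hj⟩
  have hc0 : 0 ≤ nq (crs (Z z) (deriv Z z)) := by
    unfold nq
    exact Finset.sum_nonneg fun i _ => Complex.normSq_nonneg _
  have h6 : 0 < nq (mv A (Z z)) := lt_of_lt_of_le (by positivity) h3
  have h7 : nq (mv A (Z z)) ^ 2 ≤ 16 * nq (Z z) ^ 2 := by nlinarith
  rw [le_div_iff₀ (by positivity)]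
  calc 1 / 64 * (nq (crs (Z z) (deriv Z z)) / (2 * nq (Z z) ^ 2)) * (2 * nq (mv A (Z z)) ^ 2)
      ≤ 1 / 64 * (nq (crs (Z z) (deriv Z z)) / (2 * nq (Z z) ^ 2)) * (2 * (16 * nq (Z z) ^ 2)) := by
        gcongr
    _ = 1 / 4 * nq (crs (Z z) (deriv Z z)) := by
        field_simp
        ring
    _ ≤ _ := h5

theorem OCC (hRAD : RAD_stmt) : OCC_stmt := by
  classical
  intro d f U r hd2 hG hr0 hr1 p hp q hq
  obtain ⟨W₀, ⟨hW₀, hW₀p⟩, A₀, hA₀, hY₀, rfl⟩ := hq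
  obtain ⟨ε, δ, c, hε, hδ, hc, hmat⟩ := OCC_mat r A₀ hA₀ W₀ hW₀
  obtain ⟨N, C, hNo, hqN, hCt, hcone⟩ := OCC_cone (mv A₀ W₀) hY₀ δ hδ
  have hPo : IsOpen (OCC_prj (ball W₀ ε)) := OCC_prj_open _ isOpen_ball
  refine ⟨OCC_prj (ball W₀ ε), N, c / 64 / (C.toReal + 1), hPo, hNo, ?_, hqN, by positivity, ?_⟩
  · refine ⟨W₀, mem_ball_self hε, hW₀, ?_⟩
    exact hW₀p.symm
  intro Z h hZ hh hom
  obtain ⟨hZd, hZc⟩ := hZ
  have hrr : ∀ A, Near r A → Near (1 / 100) A := fun A hA i j => lt_of_lt_of_le (hA i j) hr1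
  have hZcont : ContinuousOn Z (ball 0 1) := hZd.continuousOn
  have hdcont : ContinuousOn (deriv Z) (ball 0 1) := (hZd.deriv isOpen_ball).continuousOn
  have hbm := OCC_piece Z hZcont
  have hdm := OCC_piece (deriv Z) hdcont
  have hgm := OCC_g_meas _ _ hbm hdm
  have hOo : IsOpen (ball (0 : ℂ) 1 ∩ Z ⁻¹' cone (OCC_prj (ball W₀ ε))) :=
    hZcont.isOpen_inter_preimage isOpen_ball (cone_open hPo)
  have hGm : Measurable ((ball (0 : ℂ) 1 ∩ Z ⁻¹' cone (OCC_prj (ball W₀ ε))).indicator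
      (OCC_g ((ball (0 : ℂ) 1).indicator Z) ((ball (0 : ℂ) 1).indicator (deriv Z)))) := hgm.indicator hOo.measurableSet
  generalize hGdef : (ball (0 : ℂ) 1 ∩ Z ⁻¹' cone (OCC_prj (ball W₀ ε))).indicator
      (OCC_g ((ball (0 : ℂ) 1).indicator Z) ((ball (0 : ℂ) 1).indicator (deriv Z))) = G at hGm
  generalize hZb : (ball (0 : ℂ) 1).indicator Z = Zb at hbm
  -- the pointwise inequality
  have hpt : ∀ A : M3, Near r A → ∀ z : ℂ, G z * h (mv A (Zb z)) ≤
      ENNReal.ofReal (eta z ^ 2 * ar (fun z => mv A (Z z)) z) * h (mv A (Z z)) := by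
    intro A hA z
    rw [← hGdef]
    by_cases hz : z ∈ ball (0 : ℂ) 1 ∩ Z ⁻¹' cone (OCC_prj (ball W₀ ε))
    · rw [indicator_of_mem hz, ← hZb, indicator_of_mem hz.1]
      refine mul_le_mul' ?_ le_rfl
      unfold OCC_g
      rw [indicator_of_mem hz.1, indicator_of_mem hz.1]
      refine ENNReal.ofReal_le_ofReal ?_
      have hZ0 : Z z ≠ 0 := ((OCC_mem_cone _ _).1 hz.2).1
      have h1 := OCC_ar hRAD A (hrr A hA) Z z (hZd.differentiableAt (isOpen_ball.mem_nhds hz.1)) hZ0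
      have h2 : 0 ≤ eta z ^ 2 := sq_nonneg _
      nlinarith
    · rw [indicator_of_notMem hz, zero_mul]
      exact bot_le
  -- the inner integral
  have hin : ∀ z : ℂ, G z * (ENNReal.ofReal c * ∫⁻ Y in ball (mv A₀ W₀) δ, h Y) ≤
      ∫⁻ A in {A : M3 | Near r A}, G z * h (mv A (Zb z)) := by
    intro z
    have hm : Measurable fun A : M3 => h (mv A (Zb z)) :=
      hh.comp (OCC_mv_cont.comp (Continuous.prodMk_left (Zb z))).measurable
    rw [lintegral_const_mul _ hm]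
    by_cases hz : z ∈ ball (0 : ℂ) 1 ∩ Z ⁻¹' cone (OCC_prj (ball W₀ ε))
    · refine mul_le_mul' le_rfl ?_
      obtain ⟨_, c₁, hc₁, hcB⟩ := (OCC_mem_cone _ _).1 hz.2
      refine (hmat h hh _ hcB).trans (le_of_eq ?_)
      refine lintegral_congr fun A => ?_
      rw [OCC_mv_smul, hom _ _ hc₁, ← hZb, indicator_of_mem hz.1]
    · rw [← hGdef, indicator_of_notMem hz, zero_mul, zero_mul]
  have hGint : ∫⁻ z, G z = ENNReal.ofReal (1 / 64) * arm (OCC_prj (ball W₀ ε)) Z := by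
    unfold arm
    rw [← lintegral_const_mul' _ _ ENNReal.ofReal_ne_top]
    refine lintegral_congr fun z => ?_
    rw [← hGdef]
    by_cases hz : z ∈ ball (0 : ℂ) 1
    · by_cases hz2 : Z z ∈ cone (OCC_prj (ball W₀ ε))
      · rw [indicator_of_mem (show z ∈ ball (0 : ℂ) 1 ∩ Z ⁻¹' cone (OCC_prj (ball W₀ ε)) from ⟨hz, hz2⟩), if_pos hz2,
          ← ENNReal.ofReal_mul (by norm_num)]
        unfold OCC_g ar
        rw [hZb, indicator_of_mem hz, ← hZb, indicator_of_mem hz]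
      · rw [indicator_of_notMem (show z ∉ ball (0 : ℂ) 1 ∩ Z ⁻¹' cone (OCC_prj (ball W₀ ε)) from fun h => hz2 h.2), if_neg hz2,
          mul_zero]
    · rw [indicator_of_notMem (show z ∉ ball (0 : ℂ) 1 ∩ Z ⁻¹' cone (OCC_prj (ball W₀ ε)) from fun h => hz h.1), OCC_eta_out z hz]
      simp
  have hswap : ∫⁻ A in {A : M3 | Near r A}, ∫⁻ z, G z * h (mv A (Zb z)) =
      ∫⁻ z, ∫⁻ A in {A : M3 | Near r A}, G z * h (mv A (Zb z)) := by
    have hm2 : Measurable (fun p : M3 × ℂ => G p.2 * h (mv p.1 (Zb p.2))) :=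
      (hGm.comp measurable_snd).mul (hh.comp (OCC_mv_cont.measurable.comp
        (measurable_fst.prodMk (hbm.comp measurable_snd))))
    have h2 : AEMeasurable (Function.uncurry fun (A : M3) (z : ℂ) => G z * h (mv A (Zb z)))
      ((volume.restrict {A : M3 | Near r A}).prod volume) := hm2.aemeasurable
    exact lintegral_lintegral_swap h2
  have hmain : ENNReal.ofReal (c / 64) * arm (OCC_prj (ball W₀ ε)) Z * (∫⁻ Y in ball (mv A₀ W₀) δ, h Y) ≤ Occ r h Z := by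
    calc ENNReal.ofReal (c / 64) * arm (OCC_prj (ball W₀ ε)) Z * (∫⁻ Y in ball (mv A₀ W₀) δ, h Y)
        = (∫⁻ z, G z) * (ENNReal.ofReal c * ∫⁻ Y in ball (mv A₀ W₀) δ, h Y) := by
          rw [hGint, show c / 64 = 1 / 64 * c by ring, ENNReal.ofReal_mul (by norm_num)]
          ring
      _ = ∫⁻ z, G z * (ENNReal.ofReal c * ∫⁻ Y in ball (mv A₀ W₀) δ, h Y) := (lintegral_mul_const _ hGm).symm
      _ ≤ ∫⁻ z, ∫⁻ A in {A : M3 | Near r A}, G z * h (mv A (Zb z)) := lintegral_mono hin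
      _ = ∫⁻ A in {A : M3 | Near r A}, ∫⁻ z, G z * h (mv A (Zb z)) := hswap.symm
      _ ≤ Occ r h Z := by
          unfold Occ
          refine setLIntegral_mono' (OCC_near_open r).measurableSet fun A hA => ?_
          exact lintegral_mono fun z => hpt A hA z
  have hC1 : C ≤ ENNReal.ofReal (C.toReal + 1) := by
    rw [← ENNReal.ofReal_toReal hCt]
    exact ENNReal.ofReal_le_ofReal (by simp)
  calc ENNReal.ofReal (c / 64 / (C.toReal + 1)) * arm (OCC_prj (ball W₀ ε)) Z * (∫⁻ Y in closedBall (0 : E3) 1 ∩ cone N, h Y)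
      ≤ ENNReal.ofReal (c / 64 / (C.toReal + 1)) * arm (OCC_prj (ball W₀ ε)) Z *
          (ENNReal.ofReal (C.toReal + 1) * ∫⁻ Y in ball (mv A₀ W₀) δ, h Y) := by
        refine mul_le_mul' le_rfl ((hcone h hh hom).trans (mul_le_mul' hC1 le_rfl))
    _ = ENNReal.ofReal (c / 64) * arm (OCC_prj (ball W₀ ε)) Z * (∫⁻ Y in ball (mv A₀ W₀) δ, h Y) := by
        have h8 : ENNReal.ofReal (c / 64) = ENNReal.ofReal (c / 64 / (C.toReal + 1)) * ENNReal.ofReal (C.toReal + 1) := by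
          rw [← ENNReal.ofReal_mul (by positivity)]
          congr 1
          field_simp
        rw [h8]
        ring
    _ ≤ Occ r h Z := hmain

end Pool.Agent.P2
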